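import Pool.Agent.Y473.HC.Grp

/-!
# Geometric bodies: Hadwiger's criterion, cancellation with summands, comparison

For geometric bodies in `ℝⁿ`, `n ≥ 1`, and every group `Γ` of isometries that contains the
translations (for instance the group of all isometries, or the group of the translations):

1. two bodies are equidecomposable if and only if no real valued, finitely additive, `Γ`-invariant
   function of bodies separates them;
2. `k A + X ∼ k B + Y` and `X ∼ Y` imply `A ∼ B`;
3. the same for the relation of being equidecomposable with a body contained in the other one;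
4. a body of smaller volume is equidecomposable with a body contained in the larger one;
5. in particular the cancellation law holds: `k A ∼ k B` implies `A ∼ B`;
6. division is possible: for every body `A` and `k ≥ 1` there is a body `B` with `A ∼ k B`.
-/

set_option autoImplicit false

open MeasureTheory Set Filter Topology

namespace Pool.Agent.Results.MP_28492a_gt.HadwigerCriterion

/-- The space `ℝⁿ`. -/
abbrev Rn (n : ℕ) : Type := EuclideanSpace ℝ (Fin n)

/-- A geometric body of `ℝⁿ`: a bounded, regular open, Jordan measurable set. The boundary of a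
bounded set is compact, so it has Jordan measure zero exactly when it has Lebesgue measure zero. -/
def GeometricBody {n : ℕ} (A : Set (Rn n)) : Prop :=
  Bornology.IsBounded A ∧ interior (closure A) = A ∧ volume (frontier A) = 0

/-- The join of finitely many sets: the interior of the closure of the union. -/
def Join {n k : ℕ} (P : Fin k → Set (Rn n)) : Set (Rn n) :=
  interior (closure (⋃ i, P i))

/-- Equidecomposable as geometric bodies, with isometries of the group `Γ`. -/
def Equidec {n : ℕ} (Γ : Subgroup (Rn n ≃ᵢ Rn n)) (A B : Set (Rn n)) : Prop :=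
  ∃ (m : ℕ) (P : Fin m → Set (Rn n)) (g : Fin m → Rn n ≃ᵢ Rn n),
    (∀ i, g i ∈ Γ) ∧ (∀ i, GeometricBody (P i)) ∧
    (∀ i j, i ≠ j → Disjoint (P i) (P j)) ∧ A = Join P ∧
    (∀ i j, i ≠ j → Disjoint (g i '' P i) (g j '' P j)) ∧ B = Join fun i => g i '' P i

/-- `A` is equidecomposable with a geometric body contained in `B`. -/
def SubEquidec {n : ℕ} (Γ : Subgroup (Rn n ≃ᵢ Rn n)) (A B : Set (Rn n)) : Prop :=
  ∃ B' : Set (Rn n), GeometricBody B' ∧ B' ⊆ B ∧ Equidec Γ A B'

/-- `C` is a join of `k` copies of `A` under elements of `Γ` and of the body `X`, all of these being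
pairwise disjoint, i.e. a representative of `k A + X`. -/
def IsSum {n : ℕ} (Γ : Subgroup (Rn n ≃ᵢ Rn n)) (k : ℕ) (A X C : Set (Rn n)) : Prop :=
  ∃ φ : Fin k → Rn n ≃ᵢ Rn n, (∀ i, φ i ∈ Γ) ∧
    (∀ i j, i ≠ j → Disjoint (φ i '' A) (φ j '' A)) ∧ (∀ i, Disjoint (φ i '' A) X) ∧
    C = interior (closure ((⋃ i, φ i '' A) ∪ X))

/-- `C` is a join of `k` pairwise disjoint copies of `A` under elements of `Γ`, i.e. a
representative of `k A`. -/
def IsMultiple {n : ℕ} (Γ : Subgroup (Rn n ≃ᵢ Rn n)) (k : ℕ) (A C : Set (Rn n)) : Prop :=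
  ∃ φ : Fin k → Rn n ≃ᵢ Rn n, (∀ i, φ i ∈ Γ) ∧
    (∀ i j, i ≠ j → Disjoint (φ i '' A) (φ j '' A)) ∧ C = Join fun i => φ i '' A

/-- `Φ` is an invariant: it does not change under the elements of `Γ`, and it is additive for the
join of two disjoint bodies. -/
def IsInvariant {n : ℕ} (Γ : Subgroup (Rn n ≃ᵢ Rn n)) (Φ : Set (Rn n) → ℝ) : Prop :=
  (∀ A, GeometricBody A → ∀ g ∈ Γ, Φ (g '' A) = Φ A) ∧
  ∀ A B, GeometricBody A → GeometricBody B → Disjoint A B →
    Φ (interior (closure (A ∪ B))) = Φ A + Φ B

/-- (1) Hadwiger's criterion: `A ∼ B` if and only if no invariant separates `A` and `B`. -/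
def Criterion {n : ℕ} (Γ : Subgroup (Rn n ≃ᵢ Rn n)) : Prop :=
  ∀ A B : Set (Rn n), GeometricBody A → GeometricBody B →
    (Equidec Γ A B ↔ ∀ Φ : Set (Rn n) → ℝ, IsInvariant Γ Φ → Φ A = Φ B)

/-- (2) `k A + X ∼ k B + Y` and `X ∼ Y` imply `A ∼ B`. -/
def CancelSums {n : ℕ} (Γ : Subgroup (Rn n ≃ᵢ Rn n)) : Prop :=
  ∀ k : ℕ, 1 ≤ k → ∀ A B X Y C D : Set (Rn n), GeometricBody A → GeometricBody B →
    GeometricBody X → GeometricBody Y → IsSum Γ k A X C → IsSum Γ k B Y D →
    Equidec Γ X Y → Equidec Γ C D → Equidec Γ A B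

/-- (3) If `X ∼ Y` and `k A + X` is equidecomposable with a body contained in `k B + Y`, then `A` is
equidecomposable with a body contained in `B`. -/
def CancelSub {n : ℕ} (Γ : Subgroup (Rn n ≃ᵢ Rn n)) : Prop :=
  ∀ k : ℕ, 1 ≤ k → ∀ A B X Y C D : Set (Rn n), GeometricBody A → GeometricBody B →
    GeometricBody X → GeometricBody Y → IsSum Γ k A X C → IsSum Γ k B Y D →
    Equidec Γ X Y → SubEquidec Γ C D → SubEquidec Γ A B

/-- (4) If `A` has smaller volume than `B`, then `A` is equidecomposable with a body contained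
in `B`. -/
def Comparison {n : ℕ} (Γ : Subgroup (Rn n ≃ᵢ Rn n)) : Prop :=
  ∀ A B : Set (Rn n), GeometricBody A → GeometricBody B → volume A < volume B → SubEquidec Γ A B

/-- (5) The cancellation law: `k A ∼ k B` implies `A ∼ B`. -/
def CancellationLaw {n : ℕ} (Γ : Subgroup (Rn n ≃ᵢ Rn n)) : Prop :=
  ∀ k : ℕ, 1 ≤ k → ∀ A B C D : Set (Rn n), GeometricBody A → GeometricBody B →
    IsMultiple Γ k A C → IsMultiple Γ k B D → Equidec Γ C D → Equidec Γ A B

/-- (6) Division: for every body `A` and `k ≥ 1` there is a body `B` with `A ∼ k B`. -/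
def Division {n : ℕ} (Γ : Subgroup (Rn n ≃ᵢ Rn n)) : Prop :=
  ∀ k : ℕ, 1 ≤ k → ∀ A : Set (Rn n), GeometricBody A →
    ∃ B C : Set (Rn n), GeometricBody B ∧ IsMultiple Γ k B C ∧ Equidec Γ A C

open Pool.Agent.H92R3.Canc Pool.Agent.Y473.HC

noncomputable section

variable {n : ℕ} {Γ : Subgroup (E n ≃ᵢ E n)}

theorem body_open {A : Set (E n)} (h : GeometricBody A) : IsOpen A := by
  rw [← h.2.1]
  exact isOpen_interior

theorem mem_image_iso (g : E n ≃ᵢ E n) (A : Set (E n)) (x : E n) : x ∈ g '' A ↔ g.symm x ∈ A := by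
  constructor
  · rintro ⟨y, hy, rfl⟩
    simpa using hy
  · intro h
    exact ⟨g.symm x, h, by simp⟩

theorem body_image {A : Set (E n)} (h : GeometricBody A) (g : E n ≃ᵢ E n) :
    GeometricBody (g '' A) := by
  refine ⟨?_, ?_, ?_⟩
  · exact g.isometry.lipschitz.isBounded_image h.1
  · have h1 : closure (g '' A) = g '' closure A := (g.toHomeomorph.image_closure A).symm
    have h2 : interior (g '' closure A) = g '' interior (closure A) :=
      (g.toHomeomorph.image_interior _).symm
    rw [h1, h2, h.2.1]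
  · have h1 : frontier (g '' A) = g '' frontier A := (g.toHomeomorph.image_frontier A).symm
    have h2 : g '' frontier A = g.symm ⁻¹' frontier A := by
      ext x
      exact mem_image_iso g _ x
    rw [h1, h2]
    exact (mp_iso g.symm).quasiMeasurePreserving.preimage_null h.2.2

open Classical in
/-- the indicator function -/
def ind (A : Set (E n)) (x : E n) : ℤ := if x ∈ A then 1 else 0

theorem ind_nonneg (A : Set (E n)) (x : E n) : 0 ≤ ind A x := by
  unfold ind
  split_ifs <;> norm_num

theorem ind_le (A : Set (E n)) (x : E n) : ind A x ≤ 1 := by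
  unfold ind
  split_ifs <;> norm_num

theorem one_le_ind {A : Set (E n)} {x : E n} : 1 ≤ ind A x ↔ x ∈ A := by
  unfold ind
  split_ifs with h <;> simp [h]

theorem ind_image (A : Set (E n)) (g : E n ≃ᵢ E n) (x : E n) : ind (g '' A) x = ind A (g.symm x) := by
  unfold ind
  by_cases h : x ∈ g '' A
  · rw [if_pos h, if_pos ((mem_image_iso g A x).1 h)]
  · rw [if_neg h, if_neg fun h' => h ((mem_image_iso g A x).2 h')]

theorem J_ind {A : Set (E n)} (h : GeometricBody A) : J (ind A) := by
  refine JD.toJ ⟨?_, ?_, ?_⟩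
  · obtain ⟨R, hR⟩ := h.1.exists_norm_le
    refine ⟨R, fun x hx => hR x ?_⟩
    by_contra hc
    exact hx (by simp [ind, hc])
  · refine (Set.toFinite ({0, 1} : Set ℤ)).subset ?_
    rintro _ ⟨x, rfl⟩
    unfold ind
    split_ifs <;> simp
  · exact (ND.set h.2.2).map (fun p => @ite ℤ p (Classical.propDecidable p) 1 0)

/-- the indicator function as an element of the group of Jordan functions -/
def indJ {A : Set (E n)} (h : GeometricBody A) : JF n := ⟨ind A, J_ind h⟩

/-! ### joins -/

theorem not_frontier {A : Set (E n)} (h : GeometricBody A) : ∀ᵐ x, x ∉ frontier A := by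
  rw [ae_iff]
  simpa using h.2.2

/-- membership in the join, off the boundaries -/
theorem mem_join_iff {k : ℕ} {P : Fin k → Set (E n)} (hP : ∀ i, GeometricBody (P i)) :
    ∀ᵐ x, x ∈ Join P ↔ ∃ i, x ∈ P i := by
  have h1 : ∀ᵐ x, ∀ i, x ∉ frontier (P i) := eventually_countable_forall.2 fun i =>
    not_frontier (hP i)
  filter_upwards [h1] with x hx
  constructor
  · intro h
    have h2 : x ∈ closure (⋃ i, P i) := interior_subset h
    rw [closure_iUnion_of_finite, mem_iUnion] at h2
    obtain ⟨i, hi⟩ := h2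
    refine ⟨i, ?_⟩
    by_contra hc
    apply hx i
    rw [frontier, (body_open (hP i)).interior_eq]
    exact ⟨hi, hc⟩
  · rintro ⟨i, hi⟩
    have ho : IsOpen (⋃ i, P i) := isOpen_iUnion fun i => body_open (hP i)
    exact interior_maximal subset_closure ho (mem_iUnion.2 ⟨i, hi⟩)

theorem mem_join2_iff {A B : Set (E n)} (hA : GeometricBody A) (hB : GeometricBody B) :
    ∀ᵐ x, x ∈ interior (closure (A ∪ B)) ↔ x ∈ A ∨ x ∈ B := by
  filter_upwards [not_frontier hA, not_frontier hB] with x h1 h2
  constructor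
  · intro h
    have h3 : x ∈ closure (A ∪ B) := interior_subset h
    rw [closure_union] at h3
    rcases h3 with h3 | h3
    · left
      by_contra hc
      apply h1
      rw [frontier, (body_open hA).interior_eq]
      exact ⟨h3, hc⟩
    · right
      by_contra hc
      apply h2
      rw [frontier, (body_open hB).interior_eq]
      exact ⟨h3, hc⟩
  · intro h
    exact interior_maximal subset_closure ((body_open hA).union (body_open hB)) h

theorem interior_closure_idem' (O : Set (E n)) :
    interior (closure (interior (closure O))) = interior (closure O) := by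
  apply subset_antisymm
  · exact interior_mono (closure_minimal interior_subset isClosed_closure)
  · exact interior_maximal subset_closure isOpen_interior

theorem body_empty : GeometricBody (∅ : Set (E n)) := by
  refine ⟨Bornology.isBounded_empty, by simp, by simp⟩

theorem body_join2 {A B : Set (E n)} (hA : GeometricBody A) (hB : GeometricBody B) :
    GeometricBody (interior (closure (A ∪ B))) := by
  have hO : IsOpen (A ∪ B) := (body_open hA).union (body_open hB)
  refine ⟨(hA.1.union hB.1).closure.subset interior_subset, interior_closure_idem' _, ?_⟩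
  refine measure_mono_null (t := frontier A ∪ frontier B) ?_
    (measure_union_null hA.2.2 hB.2.2)
  intro x hx
  have h1 : x ∈ closure (A ∪ B) := closure_minimal interior_subset isClosed_closure hx.1
  have h2 : x ∉ A ∪ B := by
    intro h
    apply hx.2
    rw [isOpen_interior.interior_eq]
    exact interior_maximal subset_closure hO h
  rw [closure_union] at h1
  rcases h1 with h1 | h1
  · left
    rw [frontier, (body_open hA).interior_eq]
    exact ⟨h1, fun h => h2 (Or.inl h)⟩
  · right
    rw [frontier, (body_open hB).interior_eq]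
    exact ⟨h1, fun h => h2 (Or.inr h)⟩

theorem open_null_empty {U : Set (E n)} (ho : IsOpen U) (h : ∀ᵐ x, x ∉ U) : U = ∅ := by
  by_contra hne
  have h1 := ho.measure_pos volume (Set.nonempty_iff_ne_empty.2 hne)
  have h2 : volume U = 0 := by
    rw [ae_iff] at h
    simpa using h
  exact h1.ne' h2

theorem regular_le {U V : Set (E n)} (hU : IsOpen U) (hV : interior (closure V) = V)
    (h : ∀ᵐ x, x ∈ U → x ∈ V) : U ⊆ V := by
  have h1 : U \ closure V = ∅ := by
    refine open_null_empty (hU.sdiff isClosed_closure) ?_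
    filter_upwards [h] with x hx hc
    exact hc.2 (subset_closure (hx hc.1))
  have h2 : U ⊆ closure V := by
    rw [← Set.sdiff_eq_empty]
    exact h1
  rw [← hV]
  exact interior_maximal h2 hU

theorem regular_eq {U V : Set (E n)} (hU : interior (closure U) = U)
    (hV : interior (closure V) = V) (h : ∀ᵐ x, x ∈ U ↔ x ∈ V) : U = V := by
  have oU : IsOpen U := by
    rw [← hU]
    exact isOpen_interior
  have oV : IsOpen V := by
    rw [← hV]
    exact isOpen_interior
  exact subset_antisymm (regular_le oU hV (h.mono fun x h => h.1))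
    (regular_le oV hU (h.mono fun x h => h.2))

/-- the join of `m + 1` bodies -/
theorem join_succ {m : ℕ} {P : Fin (m + 1) → Set (E n)} (hP : ∀ i, GeometricBody (P i))
    (hJ : GeometricBody (Join fun i : Fin m => P i.castSucc)) :
    Join P = interior (closure ((Join fun i : Fin m => P i.castSucc) ∪ P (Fin.last m))) := by
  refine regular_eq (interior_closure_idem' _) (interior_closure_idem' _) ?_
  filter_upwards [mem_join_iff hP, mem_join_iff (P := fun i : Fin m => P i.castSucc)
    (fun i => hP _), mem_join2_iff hJ (hP (Fin.last m))] with x h1 h2 h3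
  rw [h1, h3, h2]
  constructor
  · rintro ⟨i, hi⟩
    induction i using Fin.lastCases with
    | last => exact Or.inr hi
    | cast i => exact Or.inl ⟨i, hi⟩
  · rintro (⟨i, hi⟩ | hi)
    · exact ⟨_, hi⟩
    · exact ⟨_, hi⟩

theorem body_join : ∀ {m : ℕ} {P : Fin m → Set (E n)}, (∀ i, GeometricBody (P i)) →
    GeometricBody (Join P) := by
  intro m
  induction m with
  | zero =>
    intro P _
    have : Join P = ∅ := by simp [Join]
    rw [this]
    exact body_empty
  | succ m ih =>
    intro P hP
    have hJ := ih (P := fun i : Fin m => P i.castSucc) (fun i => hP _)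
    rw [join_succ hP hJ]
    exact body_join2 hJ (hP _)

theorem ind_join {k : ℕ} {P : Fin k → Set (E n)} (hP : ∀ i, GeometricBody (P i))
    (hd : ∀ i j, i ≠ j → Disjoint (P i) (P j)) : ∀ᵐ x, ind (Join P) x = ∑ i, ind (P i) x := by
  filter_upwards [mem_join_iff hP] with x hx
  by_cases h : ∃ i, x ∈ P i
  · obtain ⟨i, hi⟩ := h
    rw [Finset.sum_eq_single i]
    · simp [ind, hi, hx.2 ⟨i, hi⟩]
    · intro j _ hj
      have : x ∉ P j := fun h2 => Set.disjoint_left.1 (hd j i hj) h2 hi
      simp [ind, this]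
    · simp
  · have h1 : x ∉ Join P := fun h2 => h (hx.1 h2)
    push Not at h
    simp [ind, h1, h]

theorem ind_join2 {A B : Set (E n)} (hA : GeometricBody A) (hB : GeometricBody B)
    (hd : Disjoint A B) : ∀ᵐ x, ind (interior (closure (A ∪ B))) x = ind A x + ind B x := by
  have hJ := mem_join2_iff hA hB
  generalize interior (closure (A ∪ B)) = U at hJ ⊢
  filter_upwards [hJ] with x hx
  by_cases h1 : x ∈ A
  · have h2 : x ∉ B := fun h => Set.disjoint_left.1 hd h1 h
    simp [ind, h1, h2, hx]
  · by_cases h2 : x ∈ B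
    · simp [ind, h1, h2, hx]
    · simp [ind, h1, h2, hx]

/-! ### from bodies to functions -/

theorem equidec_to_eqG {C D : Set (E n)} (h : Equidec Γ C D) : EqG Γ (ind C) (ind D) := by
  obtain ⟨k, P, g, hg, hP, hd, rfl, hd', rfl⟩ := h
  refine ⟨Fin k, inferInstance, fun i => ind (P i), g, hg, fun i => J_ind (hP i),
    fun i x => ind_nonneg _ _, ind_join hP hd, ?_⟩
  filter_upwards [ind_join (fun i => body_image (hP i) (g i)) hd'] with x hx
  rw [hx]
  apply Finset.sum_congr rfl
  intro i _
  exact ind_image _ _ _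

theorem disj_join {k : ℕ} {P : Fin k → Set (E n)} (hP : ∀ i, GeometricBody (P i)) {X : Set (E n)}
    (hX : GeometricBody X) (hd : ∀ i, Disjoint (P i) X) : Disjoint (Join P) X := by
  rw [Set.disjoint_iff_inter_eq_empty]
  refine open_null_empty ((body_open (body_join hP)).inter (body_open hX)) ?_
  filter_upwards [mem_join_iff hP] with x hx hc
  obtain ⟨i, hi⟩ := hx.1 hc.1
  exact Set.disjoint_left.1 (hd i) hi hc.2

theorem sum_to_eqG {A X C : Set (E n)} (hA : GeometricBody A) (hX : GeometricBody X) {k : ℕ}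
    (h : IsSum Γ k A X C) :
    EqG Γ (fun x => k * ind A x + ind X x) (ind C) ∧ GeometricBody C := by
  obtain ⟨φ, hφ, hd, hdX, rfl⟩ := h
  have hb : ∀ i, GeometricBody (φ i '' A) := fun i => body_image hA (φ i)
  have hJ := body_join hb
  have hdJ := disj_join hb hX hdX
  have hC : interior (closure ((⋃ i, φ i '' A) ∪ X)) =
      interior (closure ((Join fun i => φ i '' A) ∪ X)) := by
    have h1 : closure ((⋃ i, φ i '' A) ∪ X) = closure ((Join fun i => φ i '' A) ∪ X) := by
      rw [closure_union, closure_union]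
      congr 1
      apply subset_antisymm
      · apply closure_mono
        exact interior_maximal subset_closure (isOpen_iUnion fun i => body_open (hb i))
      · exact closure_minimal interior_subset isClosed_closure
    rw [h1]
  rw [hC]
  refine ⟨?_, body_join2 hJ hX⟩
  have h1 : EqG Γ (fun x => ∑ i : Fin k, ind A x) (fun x => ∑ i : Fin k, ind A ((φ i).symm x)) :=
    EqG.sum Finset.univ fun i _ => EqG.iso (J_ind hA) (ind_nonneg A) (φ i) (hφ i)
  refine (h1.add (EqG.refl (Γ := Γ) (J_ind hX) (ind_nonneg X))).congr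
    (Eventually.of_forall fun x => ?_) ?_
  · simp
  · filter_upwards [ind_join2 hJ hX hdJ, ind_join hb hd] with x hx hx'
    rw [hx, hx']
    congr 1
    apply Finset.sum_congr rfl
    intro i _
    exact ind_image _ _ _

/-! ### from functions to bodies -/

/-- pieces from functions -/
theorem pieces {m : ℕ} {A : Set (E n)} (hA : GeometricBody A) {P : Fin m → Set (E n)}
    (hP : ∀ i, GeometricBody (P i)) {F : Fin m → E n → ℤ} (hF : ∀ i x, 0 ≤ F i x)
    (hPF : ∀ i, ∀ᵐ x, x ∈ P i ↔ 1 ≤ F i x) (hsum : ∀ᵐ x, ind A x = ∑ i, F i x) :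
    (∀ i j, i ≠ j → Disjoint (P i) (P j)) ∧ A = Join P := by
  have hall : ∀ᵐ x, ∀ i, x ∈ P i ↔ 1 ≤ F i x := eventually_countable_forall.2 hPF
  constructor
  · intro i j hij
    rw [Set.disjoint_iff_inter_eq_empty]
    refine open_null_empty ((body_open (hP i)).inter (body_open (hP j))) ?_
    filter_upwards [hall, hsum] with x a b hc
    have h1 := (a i).1 hc.1
    have h2 := (a j).1 hc.2
    have h3 : F i x + F j x ≤ ∑ i, F i x := by
      rw [← Finset.sum_pair (f := fun l => F l x) hij]
      exact Finset.sum_le_sum_of_subset_of_nonneg (Finset.subset_univ _) fun l _ _ => hF l x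
    have h4 : ind A x ≤ 1 := ind_le A x
    omega
  · refine regular_eq hA.2.1 (interior_closure_idem' _) ?_
    filter_upwards [hall, hsum, mem_join_iff hP] with x a b c
    rw [c]
    constructor
    · intro hx
      have h1 : ∑ i, F i x ≠ 0 := by
        rw [← b]
        simp [ind, hx]
      obtain ⟨i, _, hi⟩ := Finset.exists_ne_zero_of_sum_ne_zero h1
      refine ⟨i, (a i).2 ?_⟩
      have := hF i x
      omega
    · rintro ⟨i, hi⟩
      have h1 := (a i).1 hi
      have h2 : F i x ≤ ∑ i, F i x :=
        Finset.single_le_sum (f := fun i => F i x) (fun l _ => hF l x) (Finset.mem_univ i)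
      by_contra hx
      have h3 : ind A x = 0 := by simp [ind, hx]
      omega

/-- the set where a Jordan function is positive is a body up to a null set -/
theorem body_of_J {f : E n → ℤ} (hf : J f) :
    ∃ P : Set (E n), GeometricBody P ∧ ∀ᵐ x, x ∈ P ↔ 1 ≤ f x := by
  obtain ⟨f', hf', hae⟩ := hf
  obtain ⟨O, hOdef⟩ : ∃ O : Set (E n), O = {x | x ∉ disc f' ∧ 1 ≤ f' x} := ⟨_, rfl⟩
  have mO : ∀ x, x ∈ O ↔ x ∉ disc f' ∧ 1 ≤ f' x := fun x => by rw [hOdef]; rfl
  have hO : IsOpen O := by
    rw [isOpen_iff_eventually]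
    intro x hx
    obtain ⟨h1, h2⟩ := (mO x).1 hx
    filter_upwards [(isClosed_disc f').isOpen_compl.mem_nhds h1, not_disc.1 h1] with y a b
    exact (mO y).2 ⟨a, by rw [b]; exact h2⟩
  have hclO : ∀ x, x ∈ closure O → x ∉ disc f' → x ∈ O := by
    intro x hx hd
    rw [mem_closure_iff_frequently] at hx
    obtain ⟨y, hy1, hy2⟩ := (hx.and_eventually (not_disc.1 hd)).exists
    exact (mO x).2 ⟨hd, by rw [← hy2]; exact ((mO y).1 hy1).2⟩
  have hOP : O ⊆ interior (closure O) := interior_maximal subset_closure hO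
  refine ⟨interior (closure O), ⟨?_, interior_closure_idem' _, ?_⟩, ?_⟩
  · obtain ⟨R, hR⟩ := hf'.1
    have hb : Bornology.IsBounded O := by
      refine (Metric.isBounded_closedBall (x := (0 : E n)) (r := R)).subset fun x hx => ?_
      rw [mem_closedBall_zero_iff]
      refine hR x ?_
      have := ((mO x).1 hx).2
      omega
    exact hb.closure.subset interior_subset
  · refine measure_mono_null (fun x hx => ?_) hf'.2.2
    by_contra hd
    have h1 : x ∈ closure O := closure_minimal interior_subset isClosed_closure hx.1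
    apply hx.2
    rw [isOpen_interior.interior_eq]
    exact hOP (hclO x h1 hd)
  · filter_upwards [hae, hf'.2.2.ae] with x a b
    have hd := not_disc.2 b
    constructor
    · intro hx
      have := ((mO x).1 (hclO x (interior_subset hx) hd)).2
      rw [← a] at this
      exact this
    · intro hx
      apply hOP
      refine (mO x).2 ⟨hd, ?_⟩
      rw [← a]
      exact hx

theorem eqG_to_equidec {A B : Set (E n)} (hA : GeometricBody A) (hB : GeometricBody B)
    (h : EqG Γ (ind A) (ind B)) : Equidec Γ A B := by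
  obtain ⟨ι, _, f0, g0, hg0, hJ0, hf00, h3, h4⟩ := h
  let e := Fintype.equivFin ι
  let m := Fintype.card ι
  let f : Fin m → E n → ℤ := fun l => f0 (e.symm l)
  let g : Fin m → E n ≃ᵢ E n := fun l => g0 (e.symm l)
  have hf0 : ∀ l x, 0 ≤ f l x := fun l x => hf00 _ _
  have hsA : ∀ᵐ x, ind A x = ∑ l, f l x := by
    filter_upwards [h3] with x hx
    rw [hx]
    exact (Equiv.sum_comp e.symm fun i => f0 i x).symm
  have hsB : ∀ᵐ x, ind B x = ∑ l, f l ((g l).symm x) := by
    filter_upwards [h4] with x hx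
    rw [hx]
    exact (Equiv.sum_comp e.symm fun i => f0 i ((g0 i).symm x)).symm
  choose P hP hPF using fun l => body_of_J (hJ0 (e.symm l))
  have hgPF : ∀ l, ∀ᵐ x, x ∈ g l '' P l ↔ 1 ≤ f l ((g l).symm x) := by
    intro l
    filter_upwards [ae_iso (g l).symm (hPF l)] with x hx
    rw [← hx]
    exact mem_image_iso _ _ _
  obtain ⟨a1, a2⟩ := pieces hA hP hf0 hPF hsA
  obtain ⟨b1, b2⟩ := pieces hB (fun l => body_image (hP l) (g l)) (fun l x => hf0 l _) hgPF hsB
  exact ⟨m, P, g, fun l => hg0 _, hP, a1, a2, b1, b2⟩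

theorem sub_of_eqG {A B : Set (E n)} (hA : GeometricBody A) (hB : GeometricBody B)
    {q : E n → ℤ} (hq : J q) (hq0 : ∀ x, 0 ≤ q x) (h : EqG Γ (fun x => ind A x + q x) (ind B)) :
    SubEquidec Γ A B := by
  obtain ⟨Z, Z', hZ, hZ', hZ0, hZ'0, hE, hXZ, hYZ⟩ := refine_eqd
    (X := fun a : Bool => if a then ind A else q) (Y := fun _ : Unit => ind B)
    (by intro a; cases a; exacts [hq, J_ind hA]) (fun _ => J_ind hB)
    (by intro a x; cases a; exacts [hq0 x, ind_nonneg A x]) (fun _ x => ind_nonneg B x)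
    (h.congr (Eventually.of_forall fun x => by simp) (Eventually.of_forall fun x => by simp))
  have e1 : ∀ᵐ x, ind A x = Z true () x := by
    filter_upwards [hXZ true] with x hx
    simpa using hx
  have e2 : ∀ᵐ x, ind B x = Z' true () x + Z' false () x := by
    filter_upwards [hYZ ()] with x hx
    simpa using hx
  obtain ⟨P, hP, hPZ⟩ := body_of_J (hZ' true ())
  have e3 : ∀ᵐ x, ind P x = Z' true () x := by
    filter_upwards [e2, hPZ] with x h1 h2
    have h3 := ind_le B x
    have h4 := hZ'0 true () x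
    have h5 := hZ'0 false () x
    by_cases hx : x ∈ P
    · have h6 := h2.1 hx
      have h7 : ind P x = 1 := by simp [ind, hx]
      omega
    · have h6 : ¬ 1 ≤ Z' true () x := fun h => hx (h2.2 h)
      have h7 : ind P x = 0 := by simp [ind, hx]
      omega
  refine ⟨P, hP, regular_le (body_open hP) hB.2.1 ?_,
    eqG_to_equidec hA hP ((hE true ()).congr e1 e3)⟩
  filter_upwards [e2, hPZ] with x h1 h2 hx
  have h3 := h2.1 hx
  have h5 := hZ'0 false () x
  exact one_le_ind.1 (by omega)

/-! ### division -/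

theorem divide_fun (hT : HasTr Γ) (j0 : Fin n) {u : E n → ℤ} (hu : J u) (hu0 : ∀ x, 0 ≤ u x)
    (k : ℕ) (hk : 0 < k) : ∃ w : E n → ℤ, J w ∧ (∀ x, 0 ≤ w x) ∧ EqG Γ u (fun x => k * w x) := by
  have : NeZero k := ⟨hk.ne'⟩
  rcases null_or_ball hu hu0 with h3 | ⟨d, ρ, hρ, hb⟩
  · refine ⟨0, J.zero, fun x => le_rfl, EqG.zero.congr ?_ (Eventually.of_forall fun x => ?_)⟩
    · filter_upwards [h3] with x hx
      rw [hx]
      rfl
    · simp
  · obtain ⟨Θ, w, hΘ, hw, hae⟩ := T1 j0 k u hu
    have hc : Cob (fun x => u x - k * w x) := by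
      refine (Cob.sum Finset.univ fun i _ => Cob.gen (hΘ i) (ee j0 (mu i))).congr ?_
      filter_upwards [hae] with x a
      rw [a]
      ring
    obtain ⟨w', hw', hw'0, hc'⟩ := T4 hu hw (Eventually.of_forall hu0) hρ hb k hk hc
    have hkc : Cob (fun x => (k : ℤ) * (w x - w' x)) := by
      have := Cob.sum (Finset.range k) (f := fun _ x => w x - w' x) fun _ _ => hc'
      refine this.congr (Eventually.of_forall fun x => ?_)
      rw [Finset.sum_const, Finset.card_range, nsmul_eq_mul]
    have hkw : J (fun x => (k : ℤ) * w' x) := hw'.map (fun a => (k : ℤ) * a) (mul_zero _)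
    refine ⟨w', hw', hw'0, T3G hT hu hkw (Eventually.of_forall hu0)
      (Eventually.of_forall fun x => mul_nonneg (by positivity) (hw'0 x)) hρ hb ?_⟩
    refine (hc.add hkc).congr (Eventually.of_forall fun x => ?_)
    ring

/-- bodies have pairwise disjoint translates -/
theorem exists_disjoint (j0 : Fin n) {m : ℕ} {P : Fin m → Set (E n)}
    (hP : ∀ i, GeometricBody (P i)) : ∃ v : Fin m → E n, ∀ i j, i ≠ j →
      Disjoint (IsometryEquiv.addRight (v i) '' P i) (IsometryEquiv.addRight (v j) '' P j) := by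
  choose R hR using fun i => (hP i).1.exists_norm_le
  obtain ⟨M, hM0, hM⟩ : ∃ M : ℝ, 0 ≤ M ∧ ∀ i, ∀ x ∈ P i, ‖x‖ ≤ M :=
    ⟨∑ i, |R i|, Finset.sum_nonneg fun i _ => abs_nonneg _, fun i x hx =>
      ((hR i x hx).trans (le_abs_self _)).trans (Finset.single_le_sum (f := fun i => |R i|)
        (fun i _ => abs_nonneg _) (Finset.mem_univ i))⟩
  refine ⟨fun i => ee j0 ((i : ℕ) * (2 * M + 1)), fun i j hij => ?_⟩
  rw [Set.disjoint_left]
  rintro _ ⟨x, hx, rfl⟩ ⟨y, hy, hxy⟩
  have h1 : y + ee j0 ((j : ℕ) * (2 * M + 1)) = x + ee j0 ((i : ℕ) * (2 * M + 1)) := hxy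
  have h2 : ee j0 (((j : ℕ) : ℝ) * (2 * M + 1) - (i : ℕ) * (2 * M + 1)) = x - y := by
    rw [map_sub, sub_eq_sub_iff_add_eq_add, add_comm, h1]
  have h3 := congrArg (fun z => ‖z‖) h2
  simp only [norm_ee] at h3
  have h4 : ‖x - y‖ ≤ 2 * M := (norm_sub_le _ _).trans (by linarith [hM i x hx, hM j y hy])
  have h5 : |((j : ℕ) : ℝ) * (2 * M + 1) - (i : ℕ) * (2 * M + 1)| =
      |(((j : ℕ) : ℤ) - ((i : ℕ) : ℤ) : ℤ)| * (2 * M + 1) := by
    rw [← sub_mul, abs_mul, abs_of_pos (by linarith : (0 : ℝ) < 2 * M + 1)]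
    push_cast
    rfl
  have h6 : (1 : ℤ) ≤ |((j : ℕ) : ℤ) - ((i : ℕ) : ℤ)| := by
    apply Int.one_le_abs
    rw [Ne, sub_eq_zero]
    intro h
    apply hij
    apply Fin.ext
    exact_mod_cast h.symm
  have h7 : (1 : ℝ) ≤ ((|((j : ℕ) : ℤ) - ((i : ℕ) : ℤ)| : ℤ) : ℝ) := by exact_mod_cast h6
  rw [h5] at h3
  nlinarith

theorem body_translate (hT : HasTr Γ) {m : ℕ} {P : Fin m → Set (E n)}
    (hP : ∀ i, GeometricBody (P i)) {v : Fin m → E n} (hd : ∀ i j, i ≠ j →
      Disjoint (IsometryEquiv.addRight (v i) '' P i) (IsometryEquiv.addRight (v j) '' P j)) :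
    EqG Γ (fun x => ∑ i, ind (P i) x)
      (ind (Join fun i => IsometryEquiv.addRight (v i) '' P i)) := by
  have h1 : EqG Γ (fun x => ∑ i, ind (P i) x)
      (fun x => ∑ i, ind (P i) ((IsometryEquiv.addRight (v i)).symm x)) :=
    EqG.sum Finset.univ fun i _ => EqG.iso (J_ind (hP i)) (ind_nonneg (P i)) _ (hT (v i))
  refine h1.congr (Eventually.of_forall fun x => rfl) ?_
  filter_upwards [ind_join (fun i => body_image (hP i) (IsometryEquiv.addRight (v i))) hd] with x hx
  rw [hx]
  exact Finset.sum_congr rfl fun i _ => ind_image _ _ _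

/-- every nonnegative Jordan function is equidecomposable with a body -/
theorem body_of_fun (hT : HasTr Γ) (j0 : Fin n) {w : E n → ℤ} (hw : J w) (hw0 : ∀ x, 0 ≤ w x) :
    ∃ B : Set (E n), GeometricBody B ∧ EqG Γ w (ind B) := by
  obtain ⟨w', hw', hw'0, hae⟩ := rep_JD hw hw0
  obtain ⟨M, hM⟩ : ∃ M : ℕ, ∀ x, w' x ≤ M := by
    obtain ⟨M, hM⟩ := hw'.2.1.bddAbove
    exact ⟨M.toNat, fun x => (hM ⟨x, rfl⟩).trans (Int.self_le_toNat M)⟩
  have hlev : ∀ j : Fin M, J (fun x => max (w' x - (j : ℕ)) 0) := fun j =>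
    J.map hw'.toJ (fun a : ℤ => max (a - (j : ℕ)) 0) (by simp)
  choose P hP hPw using fun j => body_of_J (hlev j)
  obtain ⟨v, hv⟩ := exists_disjoint j0 hP
  refine ⟨_, body_join fun i => body_image (hP i) _, (body_translate hT hP hv).congr ?_
    (Eventually.of_forall fun x => rfl)⟩
  filter_upwards [hae, eventually_countable_forall.2 hPw] with x h1 h2
  rw [h1]
  have h3 : ∀ j : Fin M, ind (P j) x = if ((j : ℕ) : ℤ) < w' x then 1 else 0 := by
    intro j
    by_cases h : x ∈ P j
    · have h4 := (h2 j).1 h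
      have h5 : ((j : ℕ) : ℤ) < w' x := by
        by_contra hc
        rw [max_eq_right (by omega)] at h4
        omega
      rw [if_pos h5]
      simp [ind, h]
    · have h5 : ¬ ((j : ℕ) : ℤ) < w' x := by
        intro hc
        apply h
        apply (h2 j).2
        rw [max_eq_left (by omega)]
        omega
      rw [if_neg h5]
      simp [ind, h]
  rw [Finset.sum_congr rfl fun j _ => h3 j]
  have h6 : w' x = ((w' x).toNat : ℤ) := (Int.toNat_of_nonneg (hw'0 x)).symm
  have h7 : (w' x).toNat ≤ M := by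
    have := hM x
    omega
  rw [Finset.sum_ite, Finset.sum_const_zero, add_zero, Finset.sum_const, nsmul_eq_mul, mul_one]
  have h8 : (Finset.univ.filter fun j : Fin M => ((j : ℕ) : ℤ) < w' x).card = (w' x).toNat := by
    have h9 : (Finset.univ.filter fun j : Fin M => ((j : ℕ) : ℤ) < w' x) =
        (Finset.univ.filter fun j : Fin M => (j : ℕ) < (w' x).toNat) := by
      ext j
      simp only [Finset.mem_filter, Finset.mem_univ, true_and]
      omega
    rw [h9, Fin.card_filter_val_lt, min_eq_right h7]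
  rw [h8]
  exact h6

/-! ### invariants -/

theorem inv_join {Φ : Set (E n) → ℝ} (hΦ : IsInvariant Γ Φ) : ∀ {m : ℕ} {P : Fin m → Set (E n)},
    (∀ i, GeometricBody (P i)) → (∀ i j, i ≠ j → Disjoint (P i) (P j)) →
    Φ (Join P) = ∑ i, Φ (P i) := by
  intro m
  induction m with
  | zero =>
    intro P _ _
    have h1 : Join P = ∅ := by simp [Join]
    have h2 := hΦ.2 ∅ ∅ body_empty body_empty (Set.disjoint_empty _)
    have h3 : interior (closure ((∅ : Set (E n)) ∪ ∅)) = ∅ := by simp
    rw [h3] at h2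
    rw [h1]
    simp only [Finset.univ_eq_empty, Finset.sum_empty]
    linarith
  | succ m ih =>
    intro P hP hd
    have hJ := body_join (P := fun i : Fin m => P i.castSucc) (fun i => hP _)
    rw [join_succ hP hJ, hΦ.2 _ _ hJ (hP _) ?_, Fin.sum_univ_castSucc,
      ih (fun i => hP _) (fun i j hij => hd _ _ fun h => hij (Fin.castSucc_injective m h))]
    refine disj_join (fun i => hP _) (hP _) fun i => hd _ _ ?_
    exact (Fin.castSucc_lt_last i).ne

theorem inv_of_equidec {Φ : Set (E n) → ℝ} (hΦ : IsInvariant Γ Φ) {A B : Set (E n)}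
    (h : Equidec Γ A B) : Φ A = Φ B := by
  obtain ⟨m, P, g, hg, hP, hd, rfl, hd', rfl⟩ := h
  rw [inv_join hΦ hP hd, inv_join hΦ (fun i => body_image (hP i) (g i)) hd']
  exact Finset.sum_congr rfl fun i _ => (hΦ.1 _ (hP i) _ (hg i)).symm

theorem I_ind {A : Set (E n)} (hA : GeometricBody A) : I (ind A) = (volume A).toReal := by
  classical
  have h1 : (fun x => (ind A x : ℝ)) = A.indicator (fun _ => (1 : ℝ)) := by
    funext x
    unfold ind
    by_cases h : x ∈ A
    · rw [if_pos h, indicator_of_mem h]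
      norm_num
    · rw [if_neg h, indicator_of_notMem h]
      norm_num
  unfold I
  rw [h1, integral_indicator (body_open hA).measurableSet, setIntegral_const, smul_eq_mul, mul_one]
  rfl

open Classical in
/-- **Geometric bodies of `ℝⁿ`, `n ≥ 1`, and a group `Γ` of isometries that contains all
translations** (for instance the group of all isometries).

1. (Hadwiger's criterion) `A ∼ B` if and only if `Φ A = Φ B` for every real valued invariant `Φ`.
2. `k A + X ∼ k B + Y` and `X ∼ Y` imply `A ∼ B`.
3. If `X ∼ Y` and `k A + X` is equidecomposable with a body contained in `k B + Y`, then `A` is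
   equidecomposable with a body contained in `B`.
4. If `A` has smaller volume than `B`, then `A` is equidecomposable with a body contained in `B`.
5. (the cancellation law) `k A ∼ k B` implies `A ∼ B`.
6. (division) For every body `A` and `k ≥ 1` there is a body `B` with `A ∼ k B`. -/
theorem result : ∀ n : ℕ, 1 ≤ n → ∀ Γ : Subgroup (Rn n ≃ᵢ Rn n),
    (∀ v : Rn n, IsometryEquiv.addRight v ∈ Γ) →
    Criterion Γ ∧ CancelSums Γ ∧ CancelSub Γ ∧ Comparison Γ ∧ CancellationLaw Γ ∧ Division Γ := by
  intro n hn Γ hT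
  have j0 : Fin n := ⟨0, hn⟩
  have h2 : CancelSums Γ := by
    intro k hk A B X Y C D hA hB hX hY hC hD hXY hCD
    obtain ⟨c1, -⟩ := sum_to_eqG hA hX hC
    obtain ⟨c2, -⟩ := sum_to_eqG hB hY hD
    have hkB : J (fun x => (k : ℤ) * ind B x) := (J_ind hB).map (fun a => (k : ℤ) * a) (mul_zero _)
    have c3 : EqG Γ (fun x => k * ind B x + ind Y x) (fun x => k * ind B x + ind X x) :=
      (EqG.refl (Γ := Γ) hkB (fun x => mul_nonneg (by positivity) (ind_nonneg B x))).add
        (equidec_to_eqG hXY).symm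
    exact eqG_to_equidec hA hB (cancel_all hT j0 (J_ind hA) (J_ind hB) (J_ind hX) (ind_nonneg A)
      (ind_nonneg B) (ind_nonneg X) k hk (((c1.trans (equidec_to_eqG hCD)).trans c2.symm).trans c3))
  refine ⟨?_, h2, ?_, ?_, ?_, ?_⟩
  · intro A B hA hB
    refine ⟨fun h Φ hΦ => inv_of_equidec hΦ h, fun h => ?_⟩
    refine eqG_to_equidec hA hB (eqG_of_forall hT j0 (J_ind hA) (J_ind hB) (ind_nonneg A)
      (ind_nonneg B) ?_)
    intro Ψ hΨ
    have h3 := h (fun S => if hS : GeometricBody S then Ψ (indJ hS) else 0) (by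
      refine ⟨fun S hS g hg => ?_, fun S T hS hT hd => ?_⟩
      · beta_reduce
        rw [dif_pos hS, dif_pos (body_image hS g)]
        refine (hΨ _ _ _ _ (ind_nonneg _) (ind_nonneg _) ?_).symm
        refine (EqG.iso (J_ind hS) (ind_nonneg S) g hg).congr (Eventually.of_forall fun x => rfl)
          (Eventually.of_forall fun x => ?_)
        exact ind_image S g x
      · beta_reduce
        rw [dif_pos hS, dif_pos hT, dif_pos (body_join2 hS hT), ← map_add]
        refine hΨ _ _ _ _ (ind_nonneg _)
          (fun x => add_nonneg (ind_nonneg S x) (ind_nonneg T x)) ?_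
        refine (EqG.refl (Γ := Γ) ((J_ind hS).add (J_ind hT))
          (fun x => add_nonneg (ind_nonneg S x) (ind_nonneg T x))).congr ?_
          (Eventually.of_forall fun x => rfl)
        exact ind_join2 hS hT hd)
    beta_reduce at h3
    rw [dif_pos hA, dif_pos hB] at h3
    exact h3
  · intro k hk A B X Y C D hA hB hX hY hC hD hXY ⟨D', hD', hsub, hCD⟩
    obtain ⟨c1, -⟩ := sum_to_eqG hA hX hC
    obtain ⟨c2, hDb⟩ := sum_to_eqG hB hY hD
    have hkB : J (fun x => (k : ℤ) * ind B x) := (J_ind hB).map (fun a => (k : ℤ) * a) (mul_zero _)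
    have c3 : EqG Γ (fun x => k * ind B x + ind Y x) (fun x => k * ind B x + ind X x) :=
      (EqG.refl (Γ := Γ) hkB (fun x => mul_nonneg (by positivity) (ind_nonneg B x))).add
        (equidec_to_eqG hXY).symm
    have hp : J (fun x => ind D x - ind D' x) := (J_ind hDb).sub (J_ind hD')
    have hp0 : ∀ x, 0 ≤ ind D x - ind D' x := by
      intro x
      by_cases h : x ∈ D'
      · simp [ind, h, hsub h]
      · have := ind_nonneg D x
        simp only [ind, h, if_false] at this ⊢
        linarith
    have c4 : EqG Γ (fun x => k * ind A x + ind X x + (ind D x - ind D' x)) (ind D) := by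
      refine ((c1.trans (equidec_to_eqG hCD)).add (EqG.refl (Γ := Γ) hp hp0)).congr
        (Eventually.of_forall fun x => rfl) (Eventually.of_forall fun x => ?_)
      ring
    obtain ⟨q, hq, hq0, hAq⟩ := cancel_le hT j0 (J_ind hA) (J_ind hB) (J_ind hX) hp (ind_nonneg A)
      (ind_nonneg B) (ind_nonneg X) hp0 k hk ((c4.trans c2.symm).trans c3)
    exact sub_of_eqG hA hB hq hq0 hAq
  · intro A B hA hB hlt
    have hBfin : volume B ≠ ⊤ := hB.1.measure_lt_top.ne
    have h3 : I (ind A) < I (ind B) := by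
      rw [I_ind hA, I_ind hB]
      exact (ENNReal.toReal_lt_toReal hA.1.measure_lt_top.ne hBfin).2 hlt
    obtain ⟨q, hq, hq0, hAq⟩ := strict hT (J_ind hA) (J_ind hB) (ind_nonneg A) (ind_nonneg B) h3
    exact sub_of_eqG hA hB hq hq0 hAq
  · intro k hk A B C D hA hB ⟨φ, hφ, hdφ, hC⟩ ⟨ψ, hψ, hdψ, hD⟩ h
    rw [hC, hD] at h
    refine h2 k hk A B ∅ ∅ _ _ hA hB body_empty body_empty
      ⟨φ, hφ, hdφ, fun i => Set.disjoint_empty _, ?_⟩ ⟨ψ, hψ, hdψ, fun i => Set.disjoint_empty _, ?_⟩
      ?_ h
    · rw [Set.union_empty]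
      rfl
    · rw [Set.union_empty]
      rfl
    · exact eqG_to_equidec body_empty body_empty
        (EqG.refl (J_ind body_empty) (ind_nonneg ∅))
  · intro k hk A hA
    obtain ⟨w, hw, hw0, h3⟩ := divide_fun hT j0 (J_ind hA) (ind_nonneg A) k hk
    obtain ⟨B, hB, h4⟩ := body_of_fun hT j0 hw hw0
    obtain ⟨v, hv⟩ := exists_disjoint j0 (P := fun _ : Fin k => B) (fun _ => hB)
    refine ⟨B, _, hB, ⟨fun i => IsometryEquiv.addRight (v i), fun i => hT _, hv, rfl⟩, ?_⟩
    refine eqG_to_equidec hA (body_join fun i => body_image hB _) ?_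
    have h5 : EqG Γ (fun x => ∑ _i : Fin k, w x) (fun x => ∑ _i : Fin k, ind B x) :=
      EqG.sum Finset.univ fun _ _ => h4
    refine ((h3.trans (h5.congr (Eventually.of_forall fun x => ?_)
      (Eventually.of_forall fun x => rfl))).trans (body_translate hT (fun _ => hB) hv))
    simp

end

end Pool.Agent.Results.MP_28492a_gt.HadwigerCriterion
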